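import Mathlib

/-!
# Positive refinement expansive homeomorphisms on `T₁` spaces (MP_b50e26_gt, Q1)

A `T₁` space admitting a positive refinement expansive homeomorphism is finite.

Idea. By compactness of the space of index sequences the number `N` in the definition can be
chosen independently of the sequence.  Apply this to the open cover `{f(U_i)}`: the finitely many
sets `W(k) = ⋂_{j < N} f⁻ʲ(U_{k_j})` (which cover `X`) satisfy `f⁻¹(W(k)) ⊆ U_m` for some `m`.
Iterating, the members of the cover `f^{-T}(W(k))` (whose number does not depend on `T`) are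
contained in sets `⋂_{j < T} f⁻ʲ(U_{k'_j})`, hence refine any given open cover when `T` is large.
Applied to the open covers `{(F \ {x})ᶜ : x ∈ F}` with `F` finite, this bounds the cardinality of
a `T₁` space by the number of the sets `W(k)`.
-/

set_option autoImplicit false

namespace Pool.Agent.Results.MP_b50e26_gt.Finite

open Set

/-- `f` is positive refinement expansive: there is a finite open cover `U_0, …, U_{n-1}` such that
for every open cover `𝒱` and every sequence `k` of indices, some finite intersection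
`⋂_{j ≤ N} f⁻ʲ(U_{k j})` is contained in a member of `𝒱`. -/
def PosRefExpansive {X : Type*} [TopologicalSpace X] (f : X ≃ₜ X) : Prop :=
  ∃ (n : ℕ) (U : Fin n → Set X), (∀ i, IsOpen (U i)) ∧ (⋃ i, U i) = univ ∧
    ∀ 𝒱 : Set (Set X), (∀ V ∈ 𝒱, IsOpen V) → ⋃₀ 𝒱 = univ →
      ∀ k : ℕ → Fin n, ∃ N : ℕ, ∃ V ∈ 𝒱, (⋂ j ∈ Finset.range (N + 1), (f^[j]) ⁻¹' (U (k j))) ⊆ V

section

variable {X : Type*}

/-- the set of points whose orbit follows the code `k` at the times `< N` -/
def W (f : X → X) {n : ℕ} (U : Fin n → Set X) (k : ℕ → Fin n) (N : ℕ) : Set X :=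
  {x | ∀ j < N, f^[j] x ∈ U (k j)}

theorem W_mono {f : X → X} {n : ℕ} {U : Fin n → Set X} {k : ℕ → Fin n} {N N' : ℕ} (h : N ≤ N') :
    W f U k N' ⊆ W f U k N := fun _ hx j hj => hx j (lt_of_lt_of_le hj h)

theorem W_congr {f : X → X} {n : ℕ} {U : Fin n → Set X} {k k' : ℕ → Fin n} {N : ℕ}
    (h : ∀ j < N, k j = k' j) : W f U k N = W f U k' N := by
  ext x
  constructor
  · intro hx j hj
    rw [← h j hj]; exact hx j hj
  · intro hx j hj
    rw [h j hj]; exact hx j hj

theorem W_eq_iInter (f : X → X) {n : ℕ} (U : Fin n → Set X) (k : ℕ → Fin n) (N : ℕ) :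
    W f U k (N + 1) = ⋂ j ∈ Finset.range (N + 1), (f^[j]) ⁻¹' (U (k j)) := by
  ext x
  simp only [W, mem_ofPred_eq, mem_iInter, Finset.mem_range, mem_preimage]

/-- The number in the definition can be chosen uniformly in the code. -/
theorem exists_uniform {f : X → X} {n : ℕ} {U : Fin n → Set X} {𝒱 : Set (Set X)}
    (h : ∀ k : ℕ → Fin n, ∃ N : ℕ, ∃ V ∈ 𝒱, W f U k N ⊆ V) :
    ∃ N : ℕ, ∀ k : ℕ → Fin n, ∃ V ∈ 𝒱, W f U k N ⊆ V := by
  have hopen : ∀ N : ℕ, IsOpen {k : ℕ → Fin n | ∃ V ∈ 𝒱, W f U k N ⊆ V} := by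
    intro N
    rw [isOpen_iff_forall_mem_open]
    rintro k ⟨V, hV, hk⟩
    refine ⟨⋂ j ∈ Finset.range N, {k' : ℕ → Fin n | k' j = k j}, ?_, ?_, ?_⟩
    · intro k' hk'
      refine ⟨V, hV, ?_⟩
      have : W f U k' N = W f U k N := by
        apply W_congr
        intro j hj
        have := mem_iInter₂.1 hk' j (Finset.mem_range.2 hj)
        exact this
      rw [this]; exact hk
    · refine isOpen_biInter_finset fun j _ => ?_
      have hc : Continuous fun k' : ℕ → Fin n => k' j := continuous_apply j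
      exact (isOpen_discrete ({k j} : Set (Fin n))).preimage hc
    · exact mem_iInter₂.2 fun j _ => rfl
  have hdir : Directed (· ⊆ ·) fun N : ℕ => {k : ℕ → Fin n | ∃ V ∈ 𝒱, W f U k N ⊆ V} := by
    intro N N'
    refine ⟨max N N', ?_, ?_⟩
    · rintro k ⟨V, hV, hk⟩
      exact ⟨V, hV, (W_mono (le_max_left _ _)).trans hk⟩
    · rintro k ⟨V, hV, hk⟩
      exact ⟨V, hV, (W_mono (le_max_right _ _)).trans hk⟩
  have hcov : (univ : Set (ℕ → Fin n)) ⊆ ⋃ N : ℕ, {k : ℕ → Fin n | ∃ V ∈ 𝒱, W f U k N ⊆ V} := by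
    intro k _
    obtain ⟨N, hN⟩ := h k
    exact mem_iUnion.2 ⟨N, hN⟩
  obtain ⟨N, hN⟩ := isCompact_univ.elim_directed_cover _ hopen hcov hdir
  exact ⟨N, fun k => hN (mem_univ k)⟩

end

/-- **Answer to Q1 (yes).** A `T₁` space admitting a positive refinement expansive homeomorphism
is finite. -/
theorem result {X : Type*} [TopologicalSpace X] [T1Space X] (f : X ≃ₜ X)
    (hf : PosRefExpansive f) : Finite X := by
  obtain ⟨n, U, hUo, hUc, hexp⟩ := hf
  -- the definition in terms of `W`
  have hW : ∀ 𝒱 : Set (Set X), (∀ V ∈ 𝒱, IsOpen V) → ⋃₀ 𝒱 = univ →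
      ∃ N : ℕ, ∀ k : ℕ → Fin n, ∃ V ∈ 𝒱, W f U k N ⊆ V := by
    intro 𝒱 h1 h2
    apply exists_uniform
    intro k
    obtain ⟨N, V, hV, hN⟩ := hexp 𝒱 h1 h2 k
    exact ⟨N + 1, V, hV, by rw [W_eq_iInter]; exact hN⟩
  -- the uniform number for the cover by the sets `f (U i)`
  obtain ⟨N₀, hN₀⟩ := hW (range fun i => f '' (U i)) (by
      rintro _ ⟨i, rfl⟩
      exact f.isOpenMap _ (hUo i)) (by
      rw [sUnion_range, ← image_iUnion, hUc, image_univ, f.surjective.range_eq])
  have hstep : ∀ k : ℕ → Fin n, ∃ i, ∀ x, f x ∈ W f U k N₀ → x ∈ U i := by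
    intro k
    obtain ⟨_, ⟨i, rfl⟩, hi⟩ := hN₀ k
    refine ⟨i, fun x hx => ?_⟩
    obtain ⟨y, hy, hyx⟩ := hi hx
    rw [← f.injective hyx]
    exact hy
  -- iterate
  have hiter : ∀ T : ℕ, ∀ k : ℕ → Fin n, ∃ k' : ℕ → Fin n, ∀ x,
      f^[T] x ∈ W f U k N₀ → x ∈ W f U k' (T + N₀) := by
    intro T
    induction T with
    | zero =>
      intro k
      exact ⟨k, fun x hx => by simpa using hx⟩
    | succ T ih =>
      intro k
      obtain ⟨k', hk'⟩ := ih k
      obtain ⟨i, hi⟩ := hstep k'
      refine ⟨fun j => if j = 0 then i else k' (j - 1), fun x hx => ?_⟩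
      have h1 : f x ∈ W f U k' (T + N₀) := by
        apply hk'
        rw [← Function.iterate_succ_apply]
        exact hx
      have h2 : x ∈ U i := hi x (W_mono (Nat.le_add_left _ _) h1)
      intro j hj
      cases j with
      | zero => simpa using h2
      | succ j =>
        have := h1 j (by omega)
        simpa [Function.iterate_succ_apply] using this
  -- the cardinality bound for finite subsets
  have hbound : ∀ F : Finset X, F.card ≤ n ^ N₀ := by
    classical
    intro F
    by_cases hF : F.Nonempty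
    · obtain ⟨N₁, hN₁⟩ := hW {V | ∃ x ∈ F, V = ((F.erase x : Finset X) : Set X)ᶜ} (by
          rintro _ ⟨x, _, rfl⟩
          exact (Finset.finite_toSet _).isClosed.isOpen_compl) (by
          rw [eq_univ_iff_forall]
          intro y
          by_cases hy : y ∈ F
          · exact ⟨_, ⟨y, hy, rfl⟩, by simp⟩
          · obtain ⟨x, hx⟩ := hF
            refine ⟨_, ⟨x, hx, rfl⟩, ?_⟩
            intro h
            exact hy (Finset.mem_of_mem_erase h))
      -- a code for every point
      have hcode : ∀ x : X, ∃ k : ℕ → Fin n, ∀ j, f^[j] (f^[N₁] x) ∈ U (k j) := by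
        intro x
        have : ∀ j : ℕ, ∃ i, f^[j] (f^[N₁] x) ∈ U i := by
          intro j
          have : f^[j] (f^[N₁] x) ∈ ⋃ i, U i := by rw [hUc]; exact mem_univ _
          exact mem_iUnion.1 this
        choose k hk using this
        exact ⟨k, hk⟩
      choose c hc using hcode
      -- the initial segments of the codes separate the points of `F`
      have hinj : Set.InjOn (fun x (j : Fin N₀) => c x j) (F : Set X) := by
        intro x hx y hy hxy
        obtain ⟨k', hk'⟩ := hiter N₁ (c x)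
        obtain ⟨_, ⟨z, _, rfl⟩, hz⟩ := hN₁ k'
        have hxW : f^[N₁] x ∈ W f U (c x) N₀ := fun j _ => hc x j
        have hyW : f^[N₁] y ∈ W f U (c x) N₀ := by
          intro j hj
          have : c x j = c y j := congrFun hxy ⟨j, hj⟩
          rw [this]
          exact hc y j
        have h1 := hz (W_mono (Nat.le_add_right _ _) (hk' x hxW))
        have h2 := hz (W_mono (Nat.le_add_right _ _) (hk' y hyW))
        have h3 : ∀ w ∈ F, w ∈ (((F.erase z : Finset X) : Set X)ᶜ) → w = z := by
          intro w hw hwz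
          by_contra hne
          exact hwz (Finset.mem_coe.2 (Finset.mem_erase.2 ⟨hne, hw⟩))
        rw [h3 x hx h1, h3 y hy h2]
      calc F.card = (F.image (fun x (j : Fin N₀) => c x j)).card :=
            (Finset.card_image_of_injOn hinj).symm
        _ ≤ Fintype.card (Fin N₀ → Fin n) := Finset.card_le_univ _
        _ = n ^ N₀ := by simp
    · rw [Finset.not_nonempty_iff_eq_empty] at hF
      subst hF
      simp
  by_contra hinf
  rw [not_finite_iff_infinite] at hinf
  obtain ⟨F, hF⟩ := Infinite.exists_subset_card_eq X (n ^ N₀ + 1)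
  have := hbound F
  omega

end Pool.Agent.Results.MP_b50e26_gt.Finite
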